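import Pool.Agent.H32.BLat.Yosida

/-!
# Continuous functional calculus on the Hilbert cube in a Banach lattice
-/

set_option linter.unusedSectionVars false
set_option linter.style.haveILetI false

namespace Pool.Agent.H32.BLat

open Set Filter Topology

/-- The Hilbert cube `[-1, 1]^ℕ`. -/
abbrev Cube : Type := ℕ → Set.Icc (-1 : ℝ) 1

/-- The coordinate functions. -/
def coord (i : ℕ) : C(Cube, ℝ) := ⟨fun x => (x i : ℝ), by fun_prop⟩

/-- Lattice Stone-Weierstrass induction on the Hilbert cube. -/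
lemma cube_induction (P : C(Cube, ℝ) → Prop) (hclosed : IsClosed {f | P f}) (h1 : P 1)
    (hc : ∀ i, P (coord i)) (hadd : ∀ f g, P f → P g → P (f + g))
    (hsmul : ∀ (t : ℝ) f, P f → P (t • f)) (hsup : ∀ f g, P f → P g → P (f ⊔ g))
    (hinf : ∀ f g, P f → P g → P (f ⊓ g)) : ∀ f, P f := by
  have h := ContinuousMap.sublattice_closure_eq_top (X := Cube) {f | P f} ⟨1, h1⟩
    (fun f hf g hg => hinf f g hf hg) (fun f hf g hg => hsup f g hf hg) ?_
  · intro f
    have h2 : f ∈ closure {f | P f} := by rw [h]; trivial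
    rwa [hclosed.closure_eq] at h2
  · intro val x y
    by_cases hxy : x = y
    · subst hxy
      refine ⟨val x • 1, hsmul _ _ h1, ?_, ?_⟩ <;> simp
    · have h2 : ∃ i, (x i : ℝ) ≠ (y i : ℝ) := by
        by_contra hcon
        push Not at hcon
        exact hxy (funext fun i => Subtype.ext (hcon i))
      obtain ⟨i, hi⟩ := h2
      have hd : (x i : ℝ) - (y i : ℝ) ≠ 0 := sub_ne_zero.mpr hi
      set a : ℝ := (val x - val y) / ((x i : ℝ) - (y i : ℝ)) with ha
      set b : ℝ := val x - a * (x i : ℝ) with hb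
      refine ⟨a • coord i + b • 1, hadd _ _ (hsmul _ _ (hc i)) (hsmul _ _ h1), ?_, ?_⟩
      · show a * (x i : ℝ) + b * 1 = val x
        rw [hb]; ring
      · show a * (y i : ℝ) + b * 1 = val y
        rw [hb, ha]
        field_simp
        ring

section LinearLattice

variable {M N : Type*} [AddCommGroup M] [Module ℝ M] [Lattice M] [IsOrderedAddMonoid M]
  [AddCommGroup N] [Module ℝ N] [Lattice N] [IsOrderedAddMonoid N]

lemma map_sup_of_abs (T : M →ₗ[ℝ] N) (hT : ∀ f, T |f| = |T f|) (f g : M) :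
    T (f ⊔ g) = T f ⊔ T g := by
  rw [sup_eq_half_smul_add_add_abs_sub' ℝ, sup_eq_half_smul_add_add_abs_sub' ℝ, map_smul, map_add,
    map_add, hT, map_sub]

lemma map_inf_of_abs (T : M →ₗ[ℝ] N) (hT : ∀ f, T |f| = |T f|) (f g : M) :
    T (f ⊓ g) = T f ⊓ T g := by
  rw [inf_eq_half_smul_add_sub_abs_sub' ℝ, inf_eq_half_smul_add_sub_abs_sub' ℝ, map_smul, map_sub,
    map_add, hT, map_sub]

lemma map_mono_of_abs (T : M →ₗ[ℝ] N) (hT : ∀ f, T |f| = |T f|) {f g : M} (h : f ≤ g) :
    T f ≤ T g := by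
  have h1 := map_sup_of_abs T hT f g
  rw [sup_eq_right.mpr h] at h1
  rw [h1]; exact le_sup_left

end LinearLattice

variable {B : Type*} [NormedAddCommGroup B] [NormedSpace ℝ B] [Lattice B] [IsOrderedAddMonoid B]
  [HasSolidNorm B] [PosSMulMono ℝ B] [CompleteSpace B]

/-- Functional calculus on the Hilbert cube, together with its cut-offs. -/
theorem calculus (u : B) (hu : 0 ≤ u) (b : ℕ → B) (hb : ∀ i, |b i| ≤ u) :
    ∃ T0 : C(Cube, ℝ) →ₗ[ℝ] B, (∀ f, T0 |f| = |T0 f|) ∧ T0 1 = u ∧ (∀ i, T0 (coord i) = b i) ∧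
      (∀ f, ‖T0 f‖ ≤ ‖u‖ * ‖f‖) ∧
      ∀ (c : B) (r : ℝ), 0 ≤ c → c ≤ r • u → ∀ δ : ℝ, 0 < δ →
        ∃ T : C(Cube, ℝ) →ₗ[ℝ] B, (∀ f, T |f| = |T f|) ∧
          (∀ f, |T f - T0 f| ≤ (‖f‖ / δ) • c) ∧
          (∀ g, 0 ≤ g → T g ≤ (T0 g - c) ⊔ 0 + δ • u) := by
  obtain ⟨hcomp, Psi, hPsi, hPabs, hPnorm⟩ := yosida u hu
  haveI := hcomp
  have hPabs' : ∀ f, (Psi : C(CharSpace (uI u hu), ℝ) →ₗ[ℝ] B) |f| =
      |(Psi : C(CharSpace (uI u hu), ℝ) →ₗ[ℝ] B) f| := hPabs
  have hPmono : ∀ {f g : C(CharSpace (uI u hu), ℝ)}, f ≤ g → Psi f ≤ Psi g :=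
    fun h => map_mono_of_abs _ hPabs' h
  have hP1 : Psi 1 = u := by
    rw [← ev_unit (uI u hu), hPsi]; rfl
  -- elements of the principal ideal
  set bI : ℕ → pIdeal u hu := fun i => ⟨b i, 1, by rw [one_smul]; exact hb i⟩ with hbI
  have hle : ∀ (i : ℕ) (χ : CharSpace (uI u hu)), χ.1 (bI i) ∈ Set.Icc (-1 : ℝ) 1 := by
    intro i χ
    have h1 : |χ.1 (bI i)| ≤ 1 := χ.2.abs_le (show |bI i| ≤ (1 : ℝ) • uI u hu by
      show |b i| ≤ (1 : ℝ) • u
      rw [one_smul]; exact hb i)
    exact abs_le.mp h1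
  set hmap : C(CharSpace (uI u hu), Cube) := ⟨fun χ i => ⟨χ.1 (bI i), hle i χ⟩, by
    apply continuous_pi
    intro i
    apply Continuous.subtype_mk
    exact (continuous_apply (bI i)).comp continuous_subtype_val⟩ with hmapdef
  set T0 : C(Cube, ℝ) →ₗ[ℝ] B :=
    { toFun := fun f => Psi (f.comp hmap)
      map_add' := fun f g => by rw [ContinuousMap.add_comp, map_add]
      map_smul' := fun t f => by
        rw [ContinuousMap.smul_comp, map_smul]; rfl } with hT0
  have hT0app : ∀ f, T0 f = Psi (f.comp hmap) := fun f => rfl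
  have habscomp : ∀ f : C(Cube, ℝ), (|f|).comp hmap = |f.comp hmap| := by
    intro f
    ext χ
    rw [ContinuousMap.abs_apply, ContinuousMap.comp_apply, ContinuousMap.comp_apply,
      ContinuousMap.abs_apply]
  have hnormcomp : ∀ f : C(Cube, ℝ), ‖f.comp hmap‖ ≤ ‖f‖ := by
    intro f
    rw [ContinuousMap.norm_le _ (norm_nonneg _)]
    intro χ
    exact f.norm_coe_le_norm _
  refine ⟨T0, ?_, ?_, ?_, ?_, ?_⟩
  · intro f
    rw [hT0app, hT0app, habscomp, hPabs]
  · rw [hT0app, ContinuousMap.one_comp, hP1]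
  · intro i
    rw [hT0app]
    have h1 : (coord i).comp hmap = ev (uI u hu) (bI i) := by
      ext χ; rfl
    rw [h1, hPsi]
  · intro f
    rw [hT0app]
    exact (hPnorm _).trans (mul_le_mul_of_nonneg_left (hnormcomp f) (norm_nonneg _))
  · intro c r hc hcr δ hδ
    set cI : pIdeal u hu := ⟨c, r, by rw [abs_of_nonneg hc]; exact hcr⟩ with hcI
    set k : C(CharSpace (uI u hu), ℝ) := ev (uI u hu) cI with hk
    have hkc : Psi k = c := hPsi cI
    have hk0 : ∀ χ, 0 ≤ k χ := by
      intro χ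
      have h1 : (0 : pIdeal u hu) ≤ cI := hc
      have h2 := χ.2.mono h1
      rw [χ.2.zero] at h2
      exact h2
    set w : C(CharSpace (uI u hu), ℝ) := (1 - (1 / δ) • k) ⊔ 0 with hw
    have hwapp : ∀ χ, w χ = max (1 - (1 / δ) * k χ) 0 := fun χ => rfl
    have hw0 : ∀ χ, 0 ≤ w χ := fun χ => by rw [hwapp]; exact le_max_right _ _
    have hw1 : ∀ χ, w χ ≤ 1 := fun χ => by
      rw [hwapp]
      apply max_le _ zero_le_one
      have := hk0 χ
      have : 0 ≤ (1 / δ) * k χ := by positivity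
      linarith
    set T : C(Cube, ℝ) →ₗ[ℝ] B :=
      { toFun := fun f => Psi (w * f.comp hmap)
        map_add' := fun f g => by rw [ContinuousMap.add_comp, mul_add, map_add]
        map_smul' := fun t f => by
          rw [ContinuousMap.smul_comp, mul_smul_comm, map_smul]; rfl } with hT
    have hTapp : ∀ f, T f = Psi (w * f.comp hmap) := fun f => rfl
    refine ⟨T, ?_, ?_, ?_⟩
    · intro f
      rw [hTapp, hTapp, habscomp, ← hPabs]
      congr 1
      ext χ
      rw [ContinuousMap.mul_apply, ContinuousMap.abs_apply, ContinuousMap.abs_apply,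
        ContinuousMap.mul_apply, abs_mul, abs_of_nonneg (hw0 χ)]
    · intro f
      rw [hTapp, hT0app, ← map_sub, ← hPabs, ← hkc, ← map_smul]
      apply hPmono
      intro χ
      show |w * f.comp hmap - f.comp hmap| χ ≤ ((‖f‖ / δ) • k) χ
      rw [ContinuousMap.abs_apply, ContinuousMap.sub_apply, ContinuousMap.mul_apply,
        ContinuousMap.smul_apply, smul_eq_mul]
      have h1 : w χ * (f.comp hmap) χ - (f.comp hmap) χ = -((1 - w χ) * (f.comp hmap) χ) := by ring
      rw [h1, abs_neg, abs_mul, abs_of_nonneg (by linarith [hw1 χ])]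
      have h2 : |(f.comp hmap) χ| ≤ ‖f‖ := by
        have := f.norm_coe_le_norm (hmap χ)
        rwa [Real.norm_eq_abs] at this
      have h3 : 1 - w χ ≤ (1 / δ) * k χ := by
        have : 1 - (1 / δ) * k χ ≤ w χ := by rw [hwapp]; exact le_max_left _ _
        linarith
      calc (1 - w χ) * |(f.comp hmap) χ| ≤ ((1 / δ) * k χ) * ‖f‖ := by
            apply mul_le_mul h3 h2 (abs_nonneg _)
            have := hk0 χ
            positivity
        _ = ‖f‖ / δ * k χ := by ring
    · intro g hg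
      have hsup : (T0 g - c) ⊔ 0 + δ • u = Psi ((g.comp hmap - k) ⊔ 0 + δ • 1) := by
        have h1 : Psi ((g.comp hmap - k) ⊔ 0) = Psi (g.comp hmap - k) ⊔ Psi 0 :=
          map_sup_of_abs _ hPabs' _ _
        rw [map_add, map_smul, hP1, h1, map_sub, map_zero, hkc, ← hT0app]
      rw [hsup, hTapp]
      apply hPmono
      intro χ
      show w χ * g (hmap χ) ≤ max (g (hmap χ) - k χ) 0 + δ * 1
      have hg0 : 0 ≤ g (hmap χ) := hg (hmap χ)
      have hk0' := hk0 χ
      rcases le_total δ (g (hmap χ)) with h | h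
      · have h1 : w χ * g (hmap χ) ≤ max (g (hmap χ) - k χ) 0 := by
          rw [hwapp, max_mul_of_nonneg _ _ hg0, zero_mul]
          apply max_le_max _ le_rfl
          have h2 : k χ ≤ 1 / δ * k χ * g (hmap χ) := by
            have h3 : 1 ≤ g (hmap χ) / δ := by rw [le_div_iff₀ hδ]; linarith
            calc k χ = 1 * k χ := by ring
              _ ≤ (g (hmap χ) / δ) * k χ := mul_le_mul_of_nonneg_right h3 hk0'
              _ = 1 / δ * k χ * g (hmap χ) := by ring
          nlinarith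
        linarith
      · have h1 : w χ * g (hmap χ) ≤ 1 * g (hmap χ) := mul_le_mul_of_nonneg_right (hw1 χ) hg0
        have h2 : 0 ≤ max (g (hmap χ) - k χ) 0 := le_max_right _ _
        linarith

end Pool.Agent.H32.BLat
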