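import Mathlib

/-!
# Real characters of vector lattices with an order unit

For a vector lattice `V` with order unit `u` such that every `v` has a least `r` with `v ≤ r • u`,
we show that this least `r` is attained by a lattice homomorphism `V → ℝ` normalised at `u`.
-/

namespace Pool.Agent.H32.BLat

open Set Filter Topology

variable {V : Type*} [AddCommGroup V] [Module ℝ V] [Lattice V] [IsOrderedAddMonoid V]
  [PosSMulMono ℝ V]

lemma smul_sup' (t : ℝ) (ht : 0 ≤ t) (a b : V) : t • (a ⊔ b) = t • a ⊔ t • b := by
  rcases ht.eq_or_lt with h | h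
  · subst h; simp
  · apply le_antisymm
    · have h1 : a ⊔ b ≤ t⁻¹ • (t • a ⊔ t • b) := by
        apply sup_le
        · have := smul_le_smul_of_nonneg_left (le_sup_left : t • a ≤ t • a ⊔ t • b)
            (inv_nonneg.mpr ht)
          rwa [smul_smul, inv_mul_cancel₀ h.ne', one_smul] at this
        · have := smul_le_smul_of_nonneg_left (le_sup_right : t • b ≤ t • a ⊔ t • b)
            (inv_nonneg.mpr ht)
          rwa [smul_smul, inv_mul_cancel₀ h.ne', one_smul] at this
      have h2 := smul_le_smul_of_nonneg_left h1 ht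
      rwa [smul_smul, mul_inv_cancel₀ h.ne', one_smul] at h2
    · exact sup_le (smul_le_smul_of_nonneg_left le_sup_left ht)
        (smul_le_smul_of_nonneg_left le_sup_right ht)

lemma smul_inf' (t : ℝ) (ht : 0 ≤ t) (a b : V) : t • (a ⊓ b) = t • a ⊓ t • b := by
  have h := smul_sup' t ht (-a) (-b)
  rw [← neg_inf, smul_neg, smul_neg, smul_neg, ← neg_inf, neg_inj] at h
  exact h

lemma abs_smul' (t : ℝ) (a : V) : |t • a| = |t| • |a| := by
  rcases le_total 0 t with h | h
  · rw [abs_of_nonneg h]
    show t • a ⊔ -(t • a) = t • (a ⊔ -a)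
    rw [smul_sup' t h, smul_neg]
  · rw [abs_of_nonpos h]
    show t • a ⊔ -(t • a) = (-t) • (a ⊔ -a)
    rw [smul_sup' (-t) (by linarith), smul_neg, neg_smul, neg_neg, sup_comm]

/-- Sublinear and sup-preserving functionals. -/
structure SupSublin (q : V → ℝ) : Prop where
  add_le : ∀ v w, q (v + w) ≤ q v + q w
  smul : ∀ (t : ℝ) (v : V), 0 ≤ t → q (t • v) = t * q v
  sup : ∀ v w, q (v ⊔ w) = max (q v) (q w)

namespace SupSublin

variable {q : V → ℝ} (hq : SupSublin q)

include hq

lemma zero : q 0 = 0 := by
  have := hq.smul 0 0 le_rfl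
  simpa using this

lemma neg_le (v : V) : -q (-v) ≤ q v := by
  have := hq.add_le v (-v)
  rw [add_neg_cancel, hq.zero] at this
  linarith

lemma mono {v w : V} (h : v ≤ w) : q v ≤ q w := by
  have := hq.sup v w
  rw [sup_eq_right.mpr h] at this
  rw [this]; exact le_max_left _ _

end SupSublin

/-- Existence of minimal sup-preserving sublinear functionals. -/
lemma exists_minimal (q0 : V → ℝ) (h0 : SupSublin q0) :
    ∃ q : V → ℝ, q ≤ q0 ∧ SupSublin q ∧ ∀ q' : V → ℝ, SupSublin q' → q' ≤ q → q' = q := by
  set s : Set (V → ℝ)ᵒᵈ := {q | SupSublin (OrderDual.ofDual q) ∧ OrderDual.ofDual q ≤ q0} with hs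
  have hz := zorn_le_nonempty₀ s ?_ (OrderDual.toDual q0) ⟨h0, le_rfl⟩
  · obtain ⟨m, hm1, hm2⟩ := hz
    refine ⟨OrderDual.ofDual m, hm1, hm2.prop.1, ?_⟩
    intro q' hq' hle
    have h1 : OrderDual.toDual q' ∈ s := ⟨hq', hle.trans hm1⟩
    have h2 : m ≤ OrderDual.toDual q' := hle
    have h3 := hm2.le_of_ge h1 h2
    exact le_antisymm hle h3
  · intro c hc hchain y hy
    have hlow : ∀ v, BddBelow (range fun q : c => (OrderDual.ofDual (q : (V → ℝ)ᵒᵈ)) v) := by
      intro v
      refine ⟨-q0 (-v), ?_⟩
      rintro _ ⟨q, rfl⟩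
      have h1 := (hc q.2).1.neg_le v
      have h2 := (hc q.2).2 (-v)
      show -q0 (-v) ≤ (OrderDual.ofDual (q : (V → ℝ)ᵒᵈ)) v
      linarith
    have hdir : ∀ q1 q2 : c, ∃ q : c, OrderDual.ofDual (q : (V → ℝ)ᵒᵈ) ≤ OrderDual.ofDual q1.1 ∧
        OrderDual.ofDual (q : (V → ℝ)ᵒᵈ) ≤ OrderDual.ofDual q2.1 := by
      intro q1 q2
      rcases hchain.total q1.2 q2.2 with h | h
      · exact ⟨q2, h, le_rfl⟩
      · exact ⟨q1, le_rfl, h⟩
    haveI : Nonempty c := ⟨⟨y, hy⟩⟩
    set m : V → ℝ := fun v => ⨅ q : c, (OrderDual.ofDual (q : (V → ℝ)ᵒᵈ)) v with hm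
    have hmle : ∀ (q : c) (v : V), m v ≤ (OrderDual.ofDual (q : (V → ℝ)ᵒᵈ)) v :=
      fun q v => ciInf_le (hlow v) q
    refine ⟨OrderDual.toDual m, ⟨⟨?_, ?_, ?_⟩, ?_⟩, ?_⟩
    · intro v w
      apply le_of_forall_pos_le_add
      intro ε hε
      obtain ⟨q1, h1⟩ := exists_lt_of_ciInf_lt (show m v < m v + ε / 2 by linarith)
      obtain ⟨q2, h2⟩ := exists_lt_of_ciInf_lt (show m w < m w + ε / 2 by linarith)
      obtain ⟨q, hq1, hq2⟩ := hdir q1 q2
      have h3 := (hc q.2).1.add_le v w
      have h4 := hmle q (v + w)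
      have h5 := hq1 v
      have h6 := hq2 w
      show m (v + w) ≤ m v + m w + ε
      linarith
    · intro t v ht
      show (⨅ q : c, (OrderDual.ofDual (q : (V → ℝ)ᵒᵈ)) (t • v)) =
        t * ⨅ q : c, (OrderDual.ofDual (q : (V → ℝ)ᵒᵈ)) v
      rw [Real.mul_iInf_of_nonneg ht]
      congr 1
      funext q
      exact (hc q.2).1.smul t v ht
    · intro v w
      show m (v ⊔ w) = max (m v) (m w)
      apply le_antisymm
      · apply le_of_forall_pos_le_add
        intro ε hε
        obtain ⟨q1, h1⟩ := exists_lt_of_ciInf_lt (show m v < m v + ε by linarith)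
        obtain ⟨q2, h2⟩ := exists_lt_of_ciInf_lt (show m w < m w + ε by linarith)
        obtain ⟨q, hq1, hq2⟩ := hdir q1 q2
        have h3 := (hc q.2).1.sup v w
        have h4 := hmle q (v ⊔ w)
        rw [h3] at h4
        refine h4.trans (max_le ?_ ?_)
        · have := hq1 v
          have := le_max_left (m v) (m w)
          linarith
        · have := hq2 w
          have := le_max_right (m v) (m w)
          linarith
      · apply max_le
        · apply le_ciInf
          intro q
          exact (hmle q v).trans ((hc q.2).1.mono le_sup_left)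
        · apply le_ciInf
          intro q
          exact (hmle q w).trans ((hc q.2).1.mono le_sup_right)
    · intro v
      exact (hmle ⟨y, hy⟩ v).trans ((hc hy).2 v)
    · intro q hq v
      exact hmle ⟨q, hq⟩ v

/-- The modification of a sup-preserving sublinear functional in direction `a`. -/
noncomputable def twist (q : V → ℝ) (a : V) : V → ℝ :=
  fun v => ⨅ t : {t : ℝ // 0 ≤ t}, (q (v + (t : ℝ) • a) - t * q a)

lemma twist_bdd {q : V → ℝ} (hq : SupSublin q) (a v : V) :
    BddBelow (range fun t : {t : ℝ // 0 ≤ t} => q (v + (t : ℝ) • a) - t * q a) := by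
  refine ⟨-q (-v), ?_⟩
  rintro _ ⟨t, rfl⟩
  have h1 := hq.add_le (v + (t : ℝ) • a) (-v)
  have h2 : v + (t : ℝ) • a + -v = (t : ℝ) • a := by abel
  rw [h2, hq.smul _ _ t.2] at h1
  show -q (-v) ≤ q (v + (t : ℝ) • a) - t * q a
  linarith

lemma twist_anti {q : V → ℝ} (hq : SupSublin q) (a v : V) {s t : ℝ} (hst : s ≤ t) :
    q (v + t • a) - t * q a ≤ q (v + s • a) - s * q a := by
  have h1 := hq.add_le (v + s • a) ((t - s) • a)
  have h2 : v + s • a + (t - s) • a = v + t • a := by
    rw [sub_smul]; abel
  rw [h2, hq.smul _ _ (by linarith : 0 ≤ t - s)] at h1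
  linarith

lemma twist_le {q : V → ℝ} (hq : SupSublin q) (a v : V) (t : ℝ) (ht : 0 ≤ t) :
    twist q a v ≤ q (v + t • a) - t * q a :=
  ciInf_le (twist_bdd hq a v) ⟨t, ht⟩

lemma twist_le_self {q : V → ℝ} (hq : SupSublin q) (a : V) : twist q a ≤ q := by
  intro v
  have := twist_le hq a v 0 le_rfl
  simpa using this

lemma exists_twist_lt {q : V → ℝ} (a v : V) {r : ℝ} (hr : twist q a v < r) :
    ∃ t : ℝ, 0 ≤ t ∧ q (v + t • a) - t * q a < r := by
  haveI : Nonempty {t : ℝ // 0 ≤ t} := ⟨⟨0, le_rfl⟩⟩
  obtain ⟨t, ht⟩ := exists_lt_of_ciInf_lt hr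
  exact ⟨t, t.2, ht⟩

lemma supSublin_twist {q : V → ℝ} (hq : SupSublin q) (a : V) : SupSublin (twist q a) := by
  haveI : Nonempty {t : ℝ // 0 ≤ t} := ⟨⟨0, le_rfl⟩⟩
  have hadd : ∀ v w, twist q a (v + w) ≤ twist q a v + twist q a w := by
    intro v w
    apply le_of_forall_pos_le_add
    intro ε hε
    obtain ⟨s, hs0, hs⟩ := exists_twist_lt a v (show twist q a v < twist q a v + ε / 2 by linarith)
    obtain ⟨t, ht0, ht⟩ := exists_twist_lt a w (show twist q a w < twist q a w + ε / 2 by linarith)
    have h1 := twist_le hq a (v + w) (s + t) (by linarith)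
    have h2 : v + w + (s + t) • a = (v + s • a) + (w + t • a) := by
      rw [add_smul]; abel
    rw [h2] at h1
    have h3 := hq.add_le (v + s • a) (w + t • a)
    nlinarith
  refine ⟨hadd, ?_, ?_⟩
  · intro t v ht
    rcases ht.eq_or_lt with h | h
    · subst h
      rw [zero_smul, zero_mul]
      apply le_antisymm
      · have := twist_le_self hq a 0
        rwa [hq.zero] at this
      · apply le_ciInf
        intro s
        show 0 ≤ q (0 + (s : ℝ) • a) - s * q a
        rw [zero_add, hq.smul _ _ s.2, sub_self]
    · have key : ∀ (t : ℝ) (v : V), 0 < t → t * twist q a v ≤ twist q a (t • v) := by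
        intro t v h
        apply le_ciInf
        intro s
        have h1 := twist_le hq a v ((s : ℝ) / t) (div_nonneg s.2 h.le)
        have h2 : t • v + (s : ℝ) • a = t • (v + ((s : ℝ) / t) • a) := by
          rw [smul_add, smul_smul, mul_div_cancel₀ _ h.ne']
        show t * twist q a v ≤ q (t • v + (s : ℝ) • a) - s * q a
        rw [h2, hq.smul _ _ h.le]
        have h3 : t * twist q a v ≤ t * (q (v + ((s : ℝ) / t) • a) - (s : ℝ) / t * q a) :=
          mul_le_mul_of_nonneg_left h1 h.le
        have h4 : t * (q (v + ((s : ℝ) / t) • a) - (s : ℝ) / t * q a) =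
            t * q (v + ((s : ℝ) / t) • a) - s * q a := by
          field_simp
        linarith
      apply le_antisymm
      · have h1 := key t⁻¹ (t • v) (inv_pos.mpr h)
        rw [smul_smul, inv_mul_cancel₀ h.ne', one_smul] at h1
        rw [inv_mul_le_iff₀ h] at h1
        exact h1
      · exact key t v h
  · intro v w
    have hF : ∀ t : ℝ, q ((v ⊔ w) + t • a) - t * q a =
        max (q (v + t • a) - t * q a) (q (w + t • a) - t * q a) := by
      intro t
      have h1 : (v ⊔ w) + t • a = (v + t • a) ⊔ (w + t • a) := by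
        rw [sup_add]
      rw [h1, hq.sup, max_sub_sub_right]
    apply le_antisymm
    · apply le_of_forall_pos_le_add
      intro ε hε
      obtain ⟨s, hs0, hs⟩ := exists_twist_lt a v (show twist q a v < twist q a v + ε by linarith)
      obtain ⟨t, ht0, ht⟩ := exists_twist_lt a w (show twist q a w < twist q a w + ε by linarith)
      have h1 := twist_le hq a (v ⊔ w) (max s t) (le_max_of_le_left hs0)
      rw [hF] at h1
      refine h1.trans (max_le ?_ ?_)
      · have := twist_anti hq a v (le_max_left s t)
        have := le_max_left (twist q a v) (twist q a w)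
        linarith
      · have := twist_anti hq a w (le_max_right s t)
        have := le_max_right (twist q a v) (twist q a w)
        linarith
    · apply max_le
      · apply le_ciInf
        intro t
        refine (twist_le hq a v t t.2).trans ?_
        show q (v + (t : ℝ) • a) - t * q a ≤ q ((v ⊔ w) + (t : ℝ) • a) - t * q a
        rw [hF]
        exact le_max_left _ _
      · apply le_ciInf
        intro t
        refine (twist_le hq a w t t.2).trans ?_
        show q (w + (t : ℝ) • a) - t * q a ≤ q ((v ⊔ w) + (t : ℝ) • a) - t * q a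
        rw [hF]
        exact le_max_right _ _

/-- A minimal sup-preserving sublinear functional is linear. -/
lemma minimal_add {q : V → ℝ} (hq : SupSublin q)
    (hmin : ∀ q' : V → ℝ, SupSublin q' → q' ≤ q → q' = q) (v a : V) : q (v + a) = q v + q a := by
  apply le_antisymm (hq.add_le v a)
  have h1 := hmin (twist q a) (supSublin_twist hq a) (twist_le_self hq a)
  have h2 := twist_le hq a v 1 zero_le_one
  rw [h1, one_smul, one_mul] at h2
  linarith

/-- Lattice homomorphisms `V → ℝ` taking the value `1` at `u`. -/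
structure IsChar (u : V) (h : V → ℝ) : Prop where
  add : ∀ v w, h (v + w) = h v + h w
  smul : ∀ (t : ℝ) (v : V), h (t • v) = t * h v
  sup : ∀ v w, h (v ⊔ w) = max (h v) (h w)
  one : h u = 1

/-- Existence of characters attaining the upper bound. -/
theorem exists_char (u : V) (p : V → ℝ) (hp : ∀ (v : V) (r : ℝ), p v ≤ r ↔ v ≤ r • u) (v : V) :
    ∃ h : V → ℝ, IsChar u h ∧ h v = p v := by
  have hle : ∀ v, v ≤ p v • u := fun v => (hp v _).mp le_rfl
  -- basic properties of `p`
  have hpz : SupSublin p := by
    have hadd : ∀ v w, p (v + w) ≤ p v + p w := by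
      intro v w
      rw [hp, add_smul]
      exact add_le_add (hle v) (hle w)
    have hsm : ∀ (t : ℝ) (v : V), 0 < t → p (t • v) ≤ t * p v := by
      intro t v ht
      rw [hp, mul_smul]
      exact smul_le_smul_of_nonneg_left (hle v) ht.le
    have hp0 : p 0 = 0 := by
      apply le_antisymm
      · rw [hp, zero_smul]
      · by_contra hneg
        push Not at hneg
        -- then p 0 < 0 so u ≤ 0 and p is not well defined
        have h1 : (0 : V) ≤ p 0 • u := hle 0
        have h2 : ∀ r : ℝ, p 0 ≤ r := by
          intro r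
          rw [hp]
          have h3 : (0 : V) ≤ -u := by
            have := smul_le_smul_of_nonneg_left h1 (show 0 ≤ (-(p 0))⁻¹ by
              rw [inv_nonneg]; linarith)
            rw [smul_zero, smul_smul] at this
            have h4 : (-(p 0))⁻¹ * p 0 = -1 := by
              rw [inv_neg, neg_mul, inv_mul_cancel₀ hneg.ne]
            rwa [h4, neg_one_smul] at this
          rcases le_total r 0 with h | h
          · have := smul_le_smul_of_nonneg_left h3 (show 0 ≤ -r by linarith)
            rw [smul_zero, smul_neg, neg_smul, neg_neg] at this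
            exact this
          · -- use `u = 0`
            have h5 : p 0 ≤ -1 := by
              rw [hp, neg_one_smul]; exact h3
            have h6 : (0 : V) ≤ r • u := by
              have h7 := (hp u 0)
              have h8 : p u ≤ 0 := by
                rw [hp, zero_smul]
                exact neg_nonneg.mp h3
              -- `0 ≤ u` as well because `p 0 ≤ 1`
              have h9 := (hp 0 1).mp (by linarith)
              rw [one_smul] at h9
              have := smul_le_smul_of_nonneg_left h9 h
              rwa [smul_zero] at this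
            exact h6
        have := h2 (p 0 - 1)
        linarith
    refine ⟨hadd, ?_, ?_⟩
    · intro t v ht
      rcases ht.eq_or_lt with h | h
      · subst h; rw [zero_smul, zero_mul, hp0]
      · apply le_antisymm (hsm t v h)
        have := hsm t⁻¹ (t • v) (inv_pos.mpr h)
        rw [smul_smul, inv_mul_cancel₀ h.ne', one_smul, le_inv_mul_iff₀ h] at this
        exact this
    · intro v w
      apply le_antisymm
      · rw [hp]
        apply sup_le
        · rw [← hp]; exact le_max_left _ _
        · rw [← hp]; exact le_max_right _ _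
      · apply max_le
        · rw [hp]; exact le_sup_left.trans (hle _)
        · rw [hp]; exact le_sup_right.trans (hle _)
  -- twist at `v`, then minimise
  obtain ⟨h, hhle, hh, hmin⟩ := exists_minimal (twist p v) (supSublin_twist hpz v)
  have hhp : h ≤ p := hhle.trans (twist_le_self hpz v)
  have hadd := minimal_add hh hmin
  have hneg : ∀ w, h (-w) = -h w := by
    intro w
    have := hadd w (-w)
    rw [add_neg_cancel, hh.zero] at this
    linarith
  have hpu : p u ≤ 1 := by rw [hp, one_smul]
  have hpnu : p (-u) ≤ -1 := by rw [hp, neg_one_smul]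
  refine ⟨h, ⟨hadd, ?_, hh.sup, ?_⟩, ?_⟩
  · intro t w
    rcases le_total 0 t with ht | ht
    · exact hh.smul t w ht
    · have h1 := hh.smul (-t) w (by linarith)
      have h2 : t • w = -((-t) • w) := by rw [neg_smul, neg_neg]
      rw [h2, hneg, h1]; ring
  · apply le_antisymm
    · exact (hhp u).trans hpu
    · have h1 := (hhp (-u)).trans hpnu
      rw [hneg] at h1
      linarith
  · apply le_antisymm (hhp v)
    have h1 : h (-v) ≤ twist p v (-v) := hhle (-v)
    have h2 := twist_le hpz v (-v) 1 zero_le_one
    rw [one_smul, neg_add_cancel, hpz.zero, one_mul] at h2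
    rw [hneg] at h1
    linarith

end Pool.Agent.H32.BLat
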