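import Mathlib

/-!
# Banach lattices, ideals, semiprojectivity and inductive limits

Definitions following the problem file.
-/

namespace Pool.Agent.H32.BLat

open Set Filter Topology

universe u v

/-- A (real) Banach lattice. -/
structure BanachLattice : Type (u + 1) where
  /-- The underlying type. -/
  carrier : Type u
  [instNormed : NormedAddCommGroup carrier]
  [instSpace : NormedSpace ℝ carrier]
  [instLattice : Lattice carrier]
  [instOrdered : IsOrderedAddMonoid carrier]
  [instPosSMul : PosSMulMono ℝ carrier]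
  [instSolid : HasSolidNorm carrier]
  [instComplete : CompleteSpace carrier]

instance : CoeSort BanachLattice.{u} (Type u) := ⟨BanachLattice.carrier⟩

attribute [instance] BanachLattice.instNormed BanachLattice.instSpace BanachLattice.instLattice
  BanachLattice.instOrdered BanachLattice.instPosSMul BanachLattice.instSolid
  BanachLattice.instComplete

/-- An ideal of a Banach lattice: a closed subspace `J` such that `a ∈ J` and `|b| ≤ |a|` imply
`b ∈ J`. -/
structure LatticeIdeal (B : BanachLattice.{u}) where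
  /-- The underlying subspace. -/
  toSubmodule : Submodule ℝ B
  isClosed : IsClosed (toSubmodule : Set B)
  solid : ∀ a b : B, a ∈ toSubmodule → |b| ≤ |a| → b ∈ toSubmodule

/-- The quotient `B / J`, a normed space with the quotient norm. -/
abbrev LatticeIdeal.Quot {B : BanachLattice.{u}} (J : LatticeIdeal B) : Type u :=
  B.carrier ⧸ J.toSubmodule

/-- The canonical map `B → B / J`. -/
def LatticeIdeal.qmk {B : BanachLattice.{u}} (J : LatticeIdeal B) : B →ₗ[ℝ] J.Quot :=
  J.toSubmodule.mkQ

lemma LatticeIdeal.qmk_eq_iff {B : BanachLattice.{u}} (J : LatticeIdeal B) {a b : B} :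
    J.qmk a = J.qmk b ↔ a - b ∈ J.toSubmodule :=
  Submodule.Quotient.eq J.toSubmodule

/-- The modulus of the quotient Banach lattice `B / J`: `|b + J| = |b| + J`. -/
def LatticeIdeal.qabs {B : BanachLattice.{u}} (J : LatticeIdeal B) (x : J.Quot) : J.Quot :=
  Quotient.liftOn' x (fun b => J.qmk |b|) (by
    intro a b hab
    rw [LatticeIdeal.qmk_eq_iff]
    have h1 : a - b ∈ J.toSubmodule := (Submodule.quotientRel_def J.toSubmodule).mp hab
    exact J.solid (a - b) _ h1 (abs_abs_sub_abs_le a b))

@[simp] lemma LatticeIdeal.qabs_qmk {B : BanachLattice.{u}} (J : LatticeIdeal B) (b : B) :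
    J.qabs (J.qmk b) = J.qmk |b| := rfl

/-- Lattice homomorphisms between Banach lattices. -/
def IsLatticeHom {A : BanachLattice.{u}} {B : BanachLattice.{v}} (T : A →ₗ[ℝ] B) : Prop :=
  ∀ x : A, T |x| = |T x|

/-- Lattice homomorphisms into a quotient Banach lattice `B / J`. -/
def IsLatticeHomQuot {A : BanachLattice.{u}} {B : BanachLattice.{v}} (J : LatticeIdeal B)
    (T : A →ₗ[ℝ] J.Quot) : Prop :=
  ∀ x : A, T |x| = J.qabs (T x)

/-- `A` is semiprojective: for every separable Banach lattice `B`, every increasing sequence of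
ideals `I 0 ⊆ I 1 ⊆ ⋯` with `J = closure (⋃ n, I n)` and every contractive lattice homomorphism
`φ : A → B / J` there is `n` such that for every `ε > 0` some lattice homomorphism
`ψ : A → B / I n` has norm at most `1 + ε` and lifts `φ`. -/
def Semiprojective (A : BanachLattice.{u}) : Prop :=
  ∀ (B : BanachLattice.{v}), TopologicalSpace.SeparableSpace B →
  ∀ (I : ℕ → LatticeIdeal B), (∀ n, (I n).toSubmodule ≤ (I (n + 1)).toSubmodule) →
  ∀ (J : LatticeIdeal B), (J.toSubmodule : Set B) = closure (⋃ n, ((I n).toSubmodule : Set B)) →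
  ∀ (φ : A →ₗ[ℝ] J.Quot), IsLatticeHomQuot J φ → (∀ a, ‖φ a‖ ≤ ‖a‖) →
  ∃ (n : ℕ) (h : (I n).toSubmodule ≤ J.toSubmodule), ∀ ε : ℝ, 0 < ε →
    ∃ ψ : A →ₗ[ℝ] (I n).Quot, IsLatticeHomQuot (I n) ψ ∧ (∀ a, ‖ψ a‖ ≤ (1 + ε) * ‖a‖) ∧
      ∀ a, Submodule.factor h (ψ a) = φ a

/-- The composite `A n → A (n + k)` of `k` consecutive connecting maps. -/
def composite (A : ℕ → BanachLattice.{u}) (φ : ∀ n, A n →ₗ[ℝ] A (n + 1)) (n : ℕ) :
    ∀ k : ℕ, A n →ₗ[ℝ] A (n + k)
  | 0 => LinearMap.id
  | k + 1 => (φ (n + k)).comp (composite A φ n k)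

/-- `E` is (isometrically lattice isomorphic to) the inductive limit of the sequence `(A n, φ n)`:
there are lattice homomorphisms `j n : A n → E` with `j (n + 1) ∘ φ n = j n`, with
`‖j n x‖ = lim_k ‖φ_{n + k, n} x‖`, and with `⋃ n, range (j n)` dense in `E`.  Equivalently, the map
`[x] ↦ j n x` from the algebraic direct limit with the seminorm `lim_k ‖φ_{n + k, n} x‖` is a
well-defined norm preserving lattice homomorphism with dense range, that is, it induces an isometric
lattice isomorphism from the completion onto `E`. -/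
def IsInductiveLimit (E : BanachLattice.{v}) (A : ℕ → BanachLattice.{u})
    (φ : ∀ n, A n →ₗ[ℝ] A (n + 1)) : Prop :=
  ∃ j : ∀ n, A n →ₗ[ℝ] E,
    (∀ n, IsLatticeHom (j n)) ∧
    (∀ n x, j (n + 1) (φ n x) = j n x) ∧
    (∀ n x, Tendsto (fun k => ‖composite A φ n k x‖) atTop (𝓝 ‖j n x‖)) ∧
    Dense (⋃ n, range (j n))

end Pool.Agent.H32.BLat
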