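import Pool.Agent.H32.BLat.Defs

/-!
# Renormings of `C(X, ℝ)` by finitely many norm conditions

For a finite set `G` of non-negative continuous functions containing a positive constant, `rho G` is
the gauge of the solid convex hull of `G`; it is a complete lattice norm on `C(X, ℝ)`.
-/

set_option linter.unusedSectionVars false
set_option linter.style.haveILetI false

namespace Pool.Agent.H32.BLat

open Set Filter Topology

universe u v

variable {X : Type u} [TopologicalSpace X] [CompactSpace X]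

/-- `|f|` is dominated by a non-negative combination of `G` with total weight at most `r`. -/
def Adm (G : Finset C(X, ℝ)) (f : C(X, ℝ)) (r : ℝ) : Prop :=
  ∃ l : C(X, ℝ) → ℝ, (∀ g ∈ G, 0 ≤ l g) ∧ ∑ g ∈ G, l g ≤ r ∧ |f| ≤ ∑ g ∈ G, l g • g

/-- The gauge of the solid convex hull of `G`. -/
noncomputable def rho (G : Finset C(X, ℝ)) (f : C(X, ℝ)) : ℝ := sInf {r | Adm G f r}

/-- The standing assumptions on `G`. -/
structure Good (G : Finset C(X, ℝ)) : Prop where
  nonneg : ∀ g ∈ G, 0 ≤ g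
  exists_const : ∃ κ : ℝ, 0 < κ ∧ ContinuousMap.const X κ ∈ G

lemma adm_nonneg {G : Finset C(X, ℝ)} {f : C(X, ℝ)} {r : ℝ} (h : Adm G f r) : 0 ≤ r := by
  obtain ⟨l, h1, h2, _⟩ := h
  exact (Finset.sum_nonneg h1).trans h2

lemma adm_bdd (G : Finset C(X, ℝ)) (f : C(X, ℝ)) : BddBelow {r | Adm G f r} :=
  ⟨0, fun _ h => adm_nonneg h⟩

lemma rho_nonneg (G : Finset C(X, ℝ)) (f : C(X, ℝ)) : 0 ≤ rho G f :=
  Real.sInf_nonneg fun _ h => adm_nonneg h

lemma rho_le_of_adm {G : Finset C(X, ℝ)} {f : C(X, ℝ)} {r : ℝ} (h : Adm G f r) : rho G f ≤ r :=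
  csInf_le (adm_bdd G f) h

lemma cm_abs_le_iff {f g : C(X, ℝ)} : |f| ≤ g ↔ ∀ x, |f x| ≤ g x := by
  constructor
  · intro h x
    have : |f| x ≤ g x := h x
    rwa [ContinuousMap.abs_apply] at this
  · intro h x
    show |f| x ≤ g x
    rw [ContinuousMap.abs_apply]; exact h x

lemma cm_abs_le_norm (f : C(X, ℝ)) (x : X) : |f x| ≤ ‖f‖ := by
  have := f.norm_coe_le_norm x
  rwa [Real.norm_eq_abs] at this

lemma adm_of_norm {G : Finset C(X, ℝ)} (hG : Good G) {κ : ℝ} (hκ : 0 < κ)
    (hmem : ContinuousMap.const X κ ∈ G) (f : C(X, ℝ)) : Adm G f (‖f‖ / κ) := by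
  classical
  refine ⟨fun g => if g = ContinuousMap.const X κ then ‖f‖ / κ else 0, ?_, ?_, ?_⟩
  · intro g _
    show 0 ≤ if g = ContinuousMap.const X κ then ‖f‖ / κ else 0
    split_ifs
    · positivity
    · exact le_rfl
  · rw [Finset.sum_ite_eq' G, if_pos hmem]
  · have h1 : ∑ g ∈ G, (if g = ContinuousMap.const X κ then ‖f‖ / κ else 0) • g =
        (‖f‖ / κ) • ContinuousMap.const X κ := by
      rw [Finset.sum_eq_single (ContinuousMap.const X κ)]
      · rw [if_pos rfl]
      · intro b _ hb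
        rw [if_neg hb, zero_smul]
      · intro h; exact absurd hmem h
    rw [h1, cm_abs_le_iff]
    intro x
    rw [ContinuousMap.smul_apply, ContinuousMap.const_apply, smul_eq_mul, div_mul_cancel₀ _ hκ.ne']
    exact cm_abs_le_norm f x

lemma adm_nonempty {G : Finset C(X, ℝ)} (hG : Good G) (f : C(X, ℝ)) :
    {r | Adm G f r}.Nonempty := by
  obtain ⟨κ, hκ, hmem⟩ := hG.exists_const
  exact ⟨_, adm_of_norm hG hκ hmem f⟩

lemma exists_adm_lt {G : Finset C(X, ℝ)} (hG : Good G) {f : C(X, ℝ)} {r : ℝ} (h : rho G f < r) :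
    ∃ s, s < r ∧ Adm G f s := by
  obtain ⟨s, hs1, hs2⟩ := exists_lt_of_csInf_lt (adm_nonempty hG f) h
  exact ⟨s, hs2, hs1⟩

lemma adm_add {G : Finset C(X, ℝ)} {f g : C(X, ℝ)} {r s : ℝ} (hf : Adm G f r) (hg : Adm G g s) :
    Adm G (f + g) (r + s) := by
  obtain ⟨l, h1, h2, h3⟩ := hf
  obtain ⟨m, k1, k2, k3⟩ := hg
  refine ⟨l + m, fun g hg => add_nonneg (h1 g hg) (k1 g hg), ?_, ?_⟩
  · simp only [Pi.add_apply, Finset.sum_add_distrib]
    exact add_le_add h2 k2
  · simp only [Pi.add_apply, add_smul, Finset.sum_add_distrib]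
    exact (abs_add_le f g).trans (add_le_add h3 k3)

lemma adm_smul {G : Finset C(X, ℝ)} {f : C(X, ℝ)} {r : ℝ} (t : ℝ) (hf : Adm G f r) :
    Adm G (t • f) (|t| * r) := by
  obtain ⟨l, h1, h2, h3⟩ := hf
  refine ⟨fun g => |t| * l g, fun g hg => mul_nonneg (abs_nonneg t) (h1 g hg), ?_, ?_⟩
  · rw [← Finset.mul_sum]
    exact mul_le_mul_of_nonneg_left h2 (abs_nonneg t)
  · simp only [mul_smul]
    rw [← Finset.smul_sum, cm_abs_le_iff]
    rw [cm_abs_le_iff] at h3
    intro x
    rw [ContinuousMap.smul_apply, ContinuousMap.smul_apply, smul_eq_mul, smul_eq_mul, abs_mul]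
    exact mul_le_mul_of_nonneg_left (h3 x) (abs_nonneg t)

lemma adm_mono {G : Finset C(X, ℝ)} {f g : C(X, ℝ)} {r : ℝ} (h : |f| ≤ |g|) (hg : Adm G g r) :
    Adm G f r := by
  obtain ⟨l, h1, h2, h3⟩ := hg
  exact ⟨l, h1, h2, h.trans h3⟩

lemma rho_mono {G : Finset C(X, ℝ)} (hG : Good G) {f g : C(X, ℝ)} (h : |f| ≤ |g|) :
    rho G f ≤ rho G g := by
  apply le_csInf (adm_nonempty hG g)
  intro r hr
  exact rho_le_of_adm (adm_mono h hr)

lemma rho_add_le {G : Finset C(X, ℝ)} (hG : Good G) (f g : C(X, ℝ)) :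
    rho G (f + g) ≤ rho G f + rho G g := by
  apply le_of_forall_pos_le_add
  intro ε hε
  obtain ⟨r, hr1, hr2⟩ := exists_adm_lt hG (show rho G f < rho G f + ε / 2 by linarith)
  obtain ⟨s, hs1, hs2⟩ := exists_adm_lt hG (show rho G g < rho G g + ε / 2 by linarith)
  have := rho_le_of_adm (adm_add hr2 hs2)
  linarith

lemma rho_smul_le {G : Finset C(X, ℝ)} (hG : Good G) (t : ℝ) (f : C(X, ℝ)) :
    rho G (t • f) ≤ |t| * rho G f := by
  rcases (abs_nonneg t).eq_or_lt with h | h
  · have h0 : t = 0 := abs_eq_zero.mp h.symm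
    subst h0
    rw [abs_zero, zero_mul, zero_smul]
    apply rho_le_of_adm
    exact ⟨0, fun _ _ => le_rfl, by simp, by simp⟩
  · apply le_of_forall_pos_le_add
    intro ε hε
    obtain ⟨r, hr1, hr2⟩ := exists_adm_lt hG (show rho G f < rho G f + ε / |t| by
      have : 0 < ε / |t| := by positivity
      linarith)
    have h1 := rho_le_of_adm (adm_smul t hr2)
    have h2 : |t| * r ≤ |t| * (rho G f + ε / |t|) := mul_le_mul_of_nonneg_left hr1.le h.le
    have h3 : |t| * (rho G f + ε / |t|) = |t| * rho G f + ε := by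
      field_simp
    linarith

lemma rho_smul {G : Finset C(X, ℝ)} (hG : Good G) (t : ℝ) (f : C(X, ℝ)) :
    rho G (t • f) = |t| * rho G f := by
  apply le_antisymm (rho_smul_le hG t f)
  rcases eq_or_ne t 0 with h | h
  · subst h
    rw [abs_zero, zero_mul]; exact rho_nonneg _ _
  · have h1 := rho_smul_le hG t⁻¹ (t • f)
    rw [smul_smul, inv_mul_cancel₀ h, one_smul, abs_inv] at h1
    have h2 : 0 < |t| := abs_pos.mpr h
    rwa [le_inv_mul_iff₀ h2] at h1

lemma rho_le_norm {G : Finset C(X, ℝ)} (hG : Good G) :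
    ∃ C : ℝ, 0 ≤ C ∧ ∀ f, rho G f ≤ C * ‖f‖ := by
  obtain ⟨κ, hκ, hmem⟩ := hG.exists_const
  refine ⟨κ⁻¹, by positivity, fun f => ?_⟩
  have := rho_le_of_adm (adm_of_norm hG hκ hmem f)
  rw [div_eq_inv_mul] at this
  exact this

lemma norm_le_rho {G : Finset C(X, ℝ)} (hG : Good G) :
    ∃ C : ℝ, 0 ≤ C ∧ ∀ f, ‖f‖ ≤ C * rho G f := by
  set C : ℝ := ∑ g ∈ G, ‖g‖ with hC
  have hC0 : 0 ≤ C := Finset.sum_nonneg fun g _ => norm_nonneg g
  have key : ∀ (f : C(X, ℝ)) (r : ℝ), Adm G f r → ‖f‖ ≤ C * r := by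
    rintro f r ⟨l, h1, h2, h3⟩
    have hr0 : 0 ≤ r := (Finset.sum_nonneg h1).trans h2
    rw [ContinuousMap.norm_le _ (mul_nonneg hC0 hr0)]
    intro x
    rw [Real.norm_eq_abs]
    refine ((cm_abs_le_iff.mp h3) x).trans ?_
    rw [ContinuousMap.coe_sum, Finset.sum_apply]
    calc ∑ g ∈ G, (l g • g) x ≤ ∑ g ∈ G, l g * C := by
          apply Finset.sum_le_sum
          intro g hg
          rw [ContinuousMap.smul_apply, smul_eq_mul]
          apply mul_le_mul_of_nonneg_left _ (h1 g hg)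
          refine (le_abs_self _).trans ((cm_abs_le_norm g x).trans ?_)
          exact Finset.single_le_sum (f := fun g : C(X, ℝ) => ‖g‖) (fun g _ => norm_nonneg g) hg
      _ = (∑ g ∈ G, l g) * C := by rw [Finset.sum_mul]
      _ ≤ r * C := mul_le_mul_of_nonneg_right h2 hC0
      _ = C * r := mul_comm _ _
  refine ⟨C, hC0, fun f => ?_⟩
  rcases hC0.eq_or_lt with h | h
  · obtain ⟨r, hr⟩ := adm_nonempty hG f
    have := key f r hr
    rw [← h, zero_mul] at this ⊢
    exact this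
  · apply le_of_forall_pos_le_add
    intro ε hε
    obtain ⟨r, hr1, hr2⟩ := exists_adm_lt hG (show rho G f < rho G f + ε / C by
      have : 0 < ε / C := by positivity
      linarith)
    have h1 := key f r hr2
    have h2 : C * r ≤ C * (rho G f + ε / C) := mul_le_mul_of_nonneg_left hr1.le h.le
    have h3 : C * (rho G f + ε / C) = C * rho G f + ε := by field_simp
    linarith

/-- The type synonym carrying the norm `rho G`. -/
def RC (G : Finset C(X, ℝ)) (_ : Good G) : Type u := C(X, ℝ)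

section RC

variable (G : Finset C(X, ℝ)) (hG : Good G)

instance : AddCommGroup (RC G hG) := inferInstanceAs (AddCommGroup C(X, ℝ))
instance : Module ℝ (RC G hG) := inferInstanceAs (Module ℝ C(X, ℝ))
instance : Lattice (RC G hG) := inferInstanceAs (Lattice C(X, ℝ))
instance : IsOrderedAddMonoid (RC G hG) := inferInstanceAs (IsOrderedAddMonoid C(X, ℝ))
instance : PosSMulMono ℝ (RC G hG) := inferInstanceAs (PosSMulMono ℝ C(X, ℝ))
noncomputable instance : Norm (RC G hG) := ⟨fun f => rho G (f : C(X, ℝ))⟩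

/-- The identity as a linear equivalence. -/
def RC.equiv : C(X, ℝ) ≃ₗ[ℝ] RC G hG := LinearEquiv.refl ℝ _

lemma rho_zero : rho G (0 : C(X, ℝ)) = 0 := by
  apply le_antisymm _ (rho_nonneg _ _)
  exact rho_le_of_adm ⟨0, fun _ _ => le_rfl, by simp, by simp⟩

lemma RC.core : NormedSpace.Core ℝ (RC G hG) where
  norm_nonneg f := rho_nonneg G _
  norm_smul t f := by
    rw [Real.norm_eq_abs]
    exact rho_smul hG t (f : C(X, ℝ))
  norm_triangle f g := rho_add_le hG _ _
  norm_eq_zero_iff f := by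
    constructor
    · intro h
      obtain ⟨C, hC0, hC⟩ := norm_le_rho hG
      have h1 := hC (f : C(X, ℝ))
      have h2 : rho G (f : C(X, ℝ)) = 0 := h
      rw [h2, mul_zero] at h1
      have h3 : (f : C(X, ℝ)) = (0 : C(X, ℝ)) := norm_le_zero_iff.mp h1
      exact h3
    · intro h
      subst h
      exact rho_zero G

noncomputable instance : NormedAddCommGroup (RC G hG) := NormedAddCommGroup.ofCore (RC.core G hG)
noncomputable instance : NormedSpace ℝ (RC G hG) := NormedSpace.ofCore (RC.core G hG)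

lemma RC.norm_def (f : RC G hG) : ‖f‖ = rho G (f : C(X, ℝ)) := rfl

instance : HasSolidNorm (RC G hG) where
  solid _ _ h := rho_mono hG h

instance : CompleteSpace (RC G hG) := by
  obtain ⟨C1, hC1, h1⟩ := rho_le_norm hG
  obtain ⟨C2, hC2, h2⟩ := norm_le_rho hG
  set e : C(X, ℝ) ≃L[ℝ] RC G hG :=
    (RC.equiv G hG).toContinuousLinearEquivOfBounds C1 C2 (fun f => h1 f) (fun f => h2 f) with he
  have := e.isUniformEmbedding
  have h3 : IsUniformEmbedding e.toLinearEquiv.toEquiv := this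
  exact (completeSpace_congr h3).mp inferInstance

/-- The Banach lattice `C(X, ℝ)` with the norm `rho G`. -/
noncomputable def RCLat : BanachLattice.{u} where
  carrier := RC G hG

end RC

end Pool.Agent.H32.BLat
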