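import Pool.Agent.H32.BLat.Calculus
import Pool.Agent.H32.BLat.Renorm

/-!
# Renormings of `C([-1,1]^ℕ)` by finitely many norm conditions are projective
-/

set_option linter.unusedSectionVars false
set_option linter.style.haveILetI false

namespace Pool.Agent.H32.BLat

open Set Filter Topology

universe u v

section Quot

variable {B : BanachLattice.{v}} (J : LatticeIdeal B)

lemma qmk_sup_of {M : Type*} [AddCommGroup M] [Module ℝ M] [Lattice M] [IsOrderedAddMonoid M]
    (φ : M →ₗ[ℝ] J.Quot) (hφ : ∀ f, φ |f| = J.qabs (φ f)) {f g : M} {a b : B}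
    (ha : J.qmk a = φ f) (hb : J.qmk b = φ g) : J.qmk (a ⊔ b) = φ (f ⊔ g) := by
  rw [sup_eq_half_smul_add_add_abs_sub' ℝ a b, sup_eq_half_smul_add_add_abs_sub' ℝ f g, map_smul,
    map_smul, map_add, map_add, map_add, map_add, ha, hb, hφ, map_sub, ← hb, ← ha, ← map_sub,
    LatticeIdeal.qabs_qmk]

lemma qmk_inf_of {M : Type*} [AddCommGroup M] [Module ℝ M] [Lattice M] [IsOrderedAddMonoid M]
    (φ : M →ₗ[ℝ] J.Quot) (hφ : ∀ f, φ |f| = J.qabs (φ f)) {f g : M} {a b : B}
    (ha : J.qmk a = φ f) (hb : J.qmk b = φ g) : J.qmk (a ⊓ b) = φ (f ⊓ g) := by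
  rw [inf_eq_half_smul_add_sub_abs_sub' ℝ a b, inf_eq_half_smul_add_sub_abs_sub' ℝ f g, map_smul,
    map_smul, map_sub, map_add, map_sub, map_add, ha, hb, hφ, map_sub, ← hb, ← ha, ← map_sub,
    LatticeIdeal.qabs_qmk]

lemma qmk_surj (x : J.Quot) : ∃ b : B, J.qmk b = x :=
  Submodule.mkQ_surjective J.toSubmodule x

lemma mem_of_qmk_eq_zero {b : B} (h : J.qmk b = 0) : b ∈ J.toSubmodule := by
  have : J.qmk b = J.qmk 0 := by rw [h, map_zero]
  rw [LatticeIdeal.qmk_eq_iff, sub_zero] at this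
  exact this

lemma qmk_eq_zero_of_mem {b : B} (h : b ∈ J.toSubmodule) : J.qmk b = 0 := by
  have : J.qmk b = J.qmk 0 := by
    rw [LatticeIdeal.qmk_eq_iff, sub_zero]; exact h
  rw [this, map_zero]

lemma norm_qmk_le (b : B) : ‖J.qmk b‖ ≤ ‖b‖ := Submodule.Quotient.norm_mk_le _ b

lemma exists_norm_lt (x : J.Quot) {ε : ℝ} (hε : 0 < ε) : ∃ b : B, J.qmk b = x ∧ ‖b‖ < ‖x‖ + ε :=
  Submodule.Quotient.norm_mk_lt x hε

instance : T2Space J.Quot := by
  haveI : IsClosed (J.toSubmodule : Set B) := J.isClosed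
  infer_instance

lemma continuous_qmk : Continuous J.qmk := by
  apply AddMonoidHomClass.continuous_of_bound J.qmk 1
  intro b
  rw [one_mul]
  exact norm_qmk_le J b

end Quot

/-- **Lifting theorem.** Contractive lattice homomorphisms from `(C([-1,1]^ℕ), rho G)` into a
quotient `B / J` lift to `B` with norm at most `1 + ε`. -/
theorem lifting (G : Finset C(Cube, ℝ)) (hG : Good G) (B : BanachLattice.{v}) (J : LatticeIdeal B)
    (φ : C(Cube, ℝ) →ₗ[ℝ] J.Quot) (hφ : ∀ f, φ |f| = J.qabs (φ f))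
    (hφn : ∀ f, ‖φ f‖ ≤ rho G f) (ε : ℝ) (hε : 0 < ε) :
    ∃ ψ : C(Cube, ℝ) →ₗ[ℝ] B, (∀ f, ψ |f| = |ψ f|) ∧ (∀ f, ‖ψ f‖ ≤ (1 + ε) * rho G f) ∧
      ∀ f, J.qmk (ψ f) = φ f := by
  -- lift the unit
  obtain ⟨u1, hu1⟩ := qmk_surj J (φ 1)
  set u : B := |u1| with hu
  have hu0 : 0 ≤ u := abs_nonneg u1
  have hqu : J.qmk u = φ 1 := by
    have h1 : |(1 : C(Cube, ℝ))| = 1 := by
      ext x
      rw [ContinuousMap.abs_apply, ContinuousMap.one_apply, abs_one]
    rw [hu, ← LatticeIdeal.qabs_qmk, hu1, ← hφ, h1]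
  -- lift the coordinates
  have hlift : ∀ i, ∃ b : B, |b| ≤ u ∧ J.qmk b = φ (coord i) := by
    intro i
    obtain ⟨c, hc⟩ := qmk_surj J (φ (coord i))
    refine ⟨(c ⊓ u) ⊔ (-u), ?_, ?_⟩
    · rw [abs_le']
      constructor
      · exact sup_le inf_le_right (by
          have : -u ≤ 0 := neg_nonpos.mpr hu0
          exact this.trans hu0)
      · rw [neg_sup, neg_neg]
        exact inf_le_right
    · have h1 : J.qmk (c ⊓ u) = φ (coord i ⊓ 1) := qmk_inf_of J φ hφ hc hqu
      have h2 : J.qmk (-u) = φ (-1) := by rw [map_neg, hqu, map_neg]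
      rw [qmk_sup_of J φ hφ h1 h2]
      congr 1
      ext x
      show max (min (x i : ℝ) 1) (-1) = (x i : ℝ)
      have h3 := (x i).2
      rw [min_eq_left h3.2, max_eq_left h3.1]
  choose b hb hqb using hlift
  obtain ⟨T0, hT0abs, hT01, hT0c, hT0n, hT0cut⟩ := calculus u hu0 b hb
  -- `T0` lifts `φ`
  obtain ⟨C1, hC10, hC1⟩ := rho_le_norm hG
  have hφcont : Continuous φ := by
    apply AddMonoidHomClass.continuous_of_bound φ C1
    intro f
    exact (hφn f).trans (hC1 f)
  have hT0cont : Continuous T0 := by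
    apply AddMonoidHomClass.continuous_of_bound T0 ‖u‖
    exact hT0n
  have hT0lift : ∀ f, J.qmk (T0 f) = φ f := by
    apply cube_induction (fun f => J.qmk (T0 f) = φ f)
    · exact isClosed_eq ((continuous_qmk J).comp hT0cont) hφcont
    · rw [hT01, hqu]
    · intro i; rw [hT0c, hqb]
    · intro f g hf hg; rw [map_add, map_add, map_add, hf, hg]
    · intro t f hf; rw [map_smul, map_smul, map_smul, hf]
    · intro f g hf hg
      rw [map_sup_of_abs T0 hT0abs]
      exact qmk_sup_of J φ hφ hf hg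
    · intro f g hf hg
      rw [map_inf_of_abs T0 hT0abs]
      exact qmk_inf_of J φ hφ hf hg
  -- corrections
  have hcorr : ∀ g : C(Cube, ℝ), g ∈ G → ∃ c : B, 0 ≤ c ∧ c ∈ J.toSubmodule ∧ c ≤ ‖g‖ • u ∧
      ‖(T0 g - c) ⊔ 0‖ ≤ 1 + ε / 2 := by
    intro g hg
    have h1 : ‖φ g‖ ≤ 1 := by
      refine (hφn g).trans ?_
      apply rho_le_of_adm
      classical
      refine ⟨fun g' => if g' = g then 1 else 0, ?_, ?_, ?_⟩
      · intro g' _
        show (0 : ℝ) ≤ if g' = g then 1 else 0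
        split_ifs <;> norm_num
      · rw [Finset.sum_ite_eq' G, if_pos hg]
      · rw [Finset.sum_eq_single g]
        · show |g| ≤ (if g = g then (1 : ℝ) else 0) • g
          rw [if_pos rfl, one_smul, abs_of_nonneg (hG.nonneg g hg)]
        · intro b _ hb
          show (if b = g then (1 : ℝ) else 0) • b = 0
          rw [if_neg hb, zero_smul]
        · intro h; exact absurd hg h
    obtain ⟨b', hb1, hb2⟩ := exists_norm_lt J (φ g) (show 0 < ε / 2 by positivity)
    have hb3 : T0 g - b' ∈ J.toSubmodule := by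
      rw [← LatticeIdeal.qmk_eq_iff, hT0lift, hb1]
    have hgu : T0 g ≤ ‖g‖ • u := by
      have h2 : g ≤ ‖g‖ • (1 : C(Cube, ℝ)) := by
        intro x
        show g x ≤ ‖g‖ * 1
        rw [mul_one]
        exact (le_abs_self _).trans (cm_abs_le_norm g x)
      have h3 := map_mono_of_abs T0 hT0abs h2
      rwa [map_smul, hT01] at h3
    have hnu : 0 ≤ ‖g‖ • u := smul_nonneg (norm_nonneg _) hu0
    refine ⟨|T0 g - b'| ⊓ (‖g‖ • u), le_inf (abs_nonneg _) hnu, ?_, inf_le_right, ?_⟩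
    · apply J.solid (T0 g - b') _ hb3
      rw [abs_of_nonneg (le_inf (abs_nonneg _) hnu)]
      exact inf_le_left
    · have h4 : (T0 g - |T0 g - b'| ⊓ (‖g‖ • u)) ⊔ 0 ≤ |b'| := by
        apply sup_le _ (abs_nonneg _)
        rw [sub_le_iff_le_add]
        have h5 : T0 g ≤ |b'| + |T0 g - b'| := by
          have h6 : T0 g = b' + (T0 g - b') := by abel
          calc T0 g = b' + (T0 g - b') := h6
            _ ≤ |b'| + |T0 g - b'| := add_le_add (le_abs_self _) (le_abs_self _)
        have h7 : T0 g ≤ |b'| + ‖g‖ • u :=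
          hgu.trans (le_add_of_nonneg_left (abs_nonneg _))
        rw [add_inf]
        exact le_inf h5 h7
      have h8 : |(T0 g - |T0 g - b'| ⊓ (‖g‖ • u)) ⊔ 0| ≤ |b'| := by
        rwa [abs_of_nonneg le_sup_right]
      have h9 := HasSolidNorm.solid h8
      linarith
  choose! c hc0 hcJ hcu hcn using hcorr
  set cs : B := ∑ g ∈ G, c g with hcs
  have hcs0 : 0 ≤ cs := Finset.sum_nonneg fun g hg => hc0 g hg
  have hcsJ : cs ∈ J.toSubmodule := Submodule.sum_mem _ fun g hg => hcJ g hg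
  have hcsu : cs ≤ (∑ g ∈ G, ‖g‖) • u := by
    rw [hcs, Finset.sum_smul]
    exact Finset.sum_le_sum fun g hg => hcu g hg
  set δ : ℝ := ε / (2 * (‖u‖ + 1)) with hδ
  have hδ0 : 0 < δ := by positivity
  obtain ⟨T, hTabs, hTdiff, hTcut⟩ := hT0cut cs (∑ g ∈ G, ‖g‖) hcs0 hcsu δ hδ0
  refine ⟨T, hTabs, ?_, ?_⟩
  · -- norm estimate
    have hTg : ∀ g ∈ G, ‖T g‖ ≤ 1 + ε := by
      intro g hg
      have hg0 := hG.nonneg g hg
      have h1 := hTcut g hg0
      have h2 : (T0 g - cs) ⊔ 0 ≤ (T0 g - c g) ⊔ 0 := by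
        apply sup_le_sup_right
        apply sub_le_sub_left
        exact Finset.single_le_sum (f := c) (fun g hg => hc0 g hg) hg
      have hTg0 : 0 ≤ T g := by
        have := map_mono_of_abs T hTabs hg0
        rwa [map_zero] at this
      have h3 : T g ≤ (T0 g - c g) ⊔ 0 + δ • u := h1.trans (by gcongr)
      have h4 : |T g| ≤ |(T0 g - c g) ⊔ 0 + δ • u| := by
        rw [abs_of_nonneg hTg0]
        exact h3.trans (le_abs_self _)
      have h5 := HasSolidNorm.solid h4
      have h6 : ‖(T0 g - c g) ⊔ 0 + δ • u‖ ≤ (1 + ε / 2) + δ * ‖u‖ := by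
        refine (norm_add_le _ _).trans ?_
        apply add_le_add (hcn g hg)
        rw [norm_smul, Real.norm_eq_abs, abs_of_pos hδ0]
      have h7 : δ * ‖u‖ ≤ ε / 2 := by
        rw [hδ, div_mul_eq_mul_div, div_le_div_iff₀ (by positivity) (by norm_num)]
        nlinarith [norm_nonneg u]
      linarith
    intro f
    have key : ∀ r, Adm G f r → ‖T f‖ ≤ (1 + ε) * r := by
      rintro r ⟨l, h1, h2, h3⟩
      have h4 : |T f| ≤ ∑ g ∈ G, l g • T g := by
        rw [← hTabs]
        have := map_mono_of_abs T hTabs h3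
        rw [map_sum] at this
        simpa only [map_smul] using this
      have h5 : |T f| ≤ |∑ g ∈ G, l g • T g| := h4.trans (le_abs_self _)
      have h6 := HasSolidNorm.solid h5
      refine h6.trans ((norm_sum_le _ _).trans ?_)
      calc ∑ g ∈ G, ‖l g • T g‖ ≤ ∑ g ∈ G, l g * (1 + ε) := by
            apply Finset.sum_le_sum
            intro g hg
            rw [norm_smul, Real.norm_eq_abs, abs_of_nonneg (h1 g hg)]
            exact mul_le_mul_of_nonneg_left (hTg g hg) (h1 g hg)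
        _ = (1 + ε) * ∑ g ∈ G, l g := by rw [← Finset.sum_mul, mul_comm]
        _ ≤ (1 + ε) * r := mul_le_mul_of_nonneg_left h2 (by linarith)
    apply le_of_forall_pos_le_add
    intro η hη
    obtain ⟨r, hr1, hr2⟩ := exists_adm_lt hG (show rho G f < rho G f + η / (1 + ε) by
      have : 0 < η / (1 + ε) := by positivity
      linarith)
    have h1 := key r hr2
    have h2 : (1 + ε) * r ≤ (1 + ε) * (rho G f + η / (1 + ε)) :=
      mul_le_mul_of_nonneg_left hr1.le (by linarith)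
    have h3 : (1 + ε) * (rho G f + η / (1 + ε)) = (1 + ε) * rho G f + η := by
      field_simp
    linarith
  · intro f
    have h1 : T f - T0 f ∈ J.toSubmodule := by
      have h2 : (‖f‖ / δ) • cs ∈ J.toSubmodule := Submodule.smul_mem _ _ hcsJ
      apply J.solid _ _ h2
      rw [abs_of_nonneg (smul_nonneg (by positivity) hcs0)]
      exact hTdiff f
    rw [← hT0lift f, LatticeIdeal.qmk_eq_iff]
    exact h1

/-- The renormed spaces are semiprojective. -/
theorem semiprojective_RCLat (G : Finset C(Cube, ℝ)) (hG : Good G) :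
    Semiprojective.{0, v} (RCLat G hG) := by
  intro B _ I hI J hJ φ hφ hφn
  have hle : (I 0).toSubmodule ≤ J.toSubmodule := by
    intro b hb
    show b ∈ (J.toSubmodule : Set B)
    rw [hJ]
    exact subset_closure (mem_iUnion.mpr ⟨0, hb⟩)
  refine ⟨0, hle, ?_⟩
  intro ε hε
  obtain ⟨ψ, hψabs, hψn, hψlift⟩ := lifting G hG B J φ hφ hφn ε hε
  refine ⟨(I 0).qmk.comp ψ, ?_, ?_, ?_⟩
  · intro f
    show (I 0).qmk (ψ |f|) = (I 0).qabs ((I 0).qmk (ψ f))
    rw [LatticeIdeal.qabs_qmk]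
    congr 1
    exact hψabs f
  · intro f
    exact (norm_qmk_le (I 0) _).trans (hψn f)
  · intro f
    exact hψlift f

end Pool.Agent.H32.BLat
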