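import Pool.Agent.H32.BLat.Character

/-!
# The Yosida representation of principal ideals of Banach lattices

For `0 ≤ u` in a Banach lattice `B` we produce a compact Hausdorff space `L`, a linear lattice
homomorphism `ev` from the ideal generated by `u` to `C(L, ℝ)` and a continuous linear lattice
homomorphism `Psi : C(L, ℝ) → B` with `Psi (ev b) = b`.
-/

set_option linter.unusedSectionVars false
set_option linter.style.haveILetI false

namespace Pool.Agent.H32.BLat

open Set Filter Topology

section Char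

variable {V : Type*} [AddCommGroup V] [Module ℝ V] [Lattice V] [IsOrderedAddMonoid V]
  [PosSMulMono ℝ V]

namespace IsChar

variable {u : V} {h : V → ℝ} (hh : IsChar u h)

include hh

lemma zero : h 0 = 0 := by
  have := hh.smul 0 0
  simpa using this

lemma neg (v : V) : h (-v) = -h v := by
  have := hh.smul (-1) v
  simpa using this

lemma mono {v w : V} (hvw : v ≤ w) : h v ≤ h w := by
  have := hh.sup v w
  rw [sup_eq_right.mpr hvw] at this
  rw [this]; exact le_max_left _ _

lemma map_abs (v : V) : h |v| = |h v| := by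
  show h (v ⊔ -v) = |h v|
  rw [hh.sup, hh.neg]
  rfl

lemma abs_le {v : V} {r : ℝ} (hv : |v| ≤ r • u) : |h v| ≤ r := by
  rw [← hh.map_abs]
  have := hh.mono hv
  rwa [hh.smul, hh.one, mul_one] at this

end IsChar

/-- The space of characters, with the topology of pointwise convergence. -/
def CharSpace (u : V) : Type _ := {h : V → ℝ // IsChar u h}

instance (u : V) : TopologicalSpace (CharSpace u) :=
  inferInstanceAs (TopologicalSpace {h : V → ℝ // IsChar u h})

instance (u : V) : T2Space (CharSpace u) :=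
  inferInstanceAs (T2Space {h : V → ℝ // IsChar u h})

lemma isClosed_isChar (u : V) : IsClosed {h : V → ℝ | IsChar u h} := by
  have h1 : {h : V → ℝ | IsChar u h} =
      (⋂ v : V, ⋂ w : V, {h : V → ℝ | h (v + w) = h v + h w}) ∩
      (⋂ t : ℝ, ⋂ v : V, {h : V → ℝ | h (t • v) = t * h v}) ∩
      (⋂ v : V, ⋂ w : V, {h : V → ℝ | h (v ⊔ w) = max (h v) (h w)}) ∩
      {h : V → ℝ | h u = 1} := by
    ext h
    constructor
    · intro hh
      refine ⟨⟨⟨?_, ?_⟩, ?_⟩, hh.one⟩
      · simp only [mem_iInter]; exact fun v w => hh.add v w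
      · simp only [mem_iInter]; exact fun t v => hh.smul t v
      · simp only [mem_iInter]; exact fun v w => hh.sup v w
    · rintro ⟨⟨⟨h1, h2⟩, h3⟩, h4⟩
      simp only [mem_iInter] at h1 h2 h3
      exact ⟨h1, h2, h3, h4⟩
  rw [h1]
  refine ((IsClosed.inter ?_ ?_).inter ?_).inter ?_
  · apply isClosed_iInter; intro v; apply isClosed_iInter; intro w
    exact isClosed_eq (by fun_prop) (by fun_prop)
  · apply isClosed_iInter; intro t; apply isClosed_iInter; intro v
    exact isClosed_eq (by fun_prop) (by fun_prop)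
  · apply isClosed_iInter; intro v; apply isClosed_iInter; intro w
    have h1 : Continuous fun h : V → ℝ => max (h v) (h w) :=
      Continuous.max (by fun_prop) (by fun_prop)
    exact isClosed_eq (by fun_prop) h1
  · exact isClosed_eq (continuous_apply _) continuous_const

lemma compactSpace_charSpace (u : V) (hunit : ∀ v : V, ∃ r : ℝ, |v| ≤ r • u) :
    CompactSpace (CharSpace u) := by
  choose r hr using hunit
  have h1 : IsCompact {h : V → ℝ | IsChar u h} := by
    apply IsCompact.of_isClosed_subset (isCompact_univ_pi fun v => isCompact_Icc (a := -r v) (b := r v))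
      (isClosed_isChar u)
    intro h hh v _
    exact abs_le.mp (hh.abs_le (hr v))
  exact isCompact_iff_compactSpace.mp h1

/-- The evaluation map into continuous functions on the character space. -/
def ev (u : V) : V →ₗ[ℝ] C(CharSpace u, ℝ) where
  toFun v := ⟨fun h => h.1 v, (continuous_apply v).comp continuous_subtype_val⟩
  map_add' v w := by ext h; exact h.2.add v w
  map_smul' t v := by ext h; exact h.2.smul t v

lemma ev_apply (u v : V) (h : CharSpace u) : ev u v h = h.1 v := rfl

lemma ev_unit (u : V) : ev u u = 1 := by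
  ext h; exact h.2.one

lemma ev_sup (u v w : V) : ev u (v ⊔ w) = ev u v ⊔ ev u w := by
  ext h; exact h.2.sup v w

lemma ev_abs (u v : V) : ev u |v| = |ev u v| := by
  ext h
  rw [ContinuousMap.abs_apply]
  exact h.2.map_abs v

lemma ev_inf (u v w : V) : ev u (v ⊓ w) = ev u v ⊓ ev u w := by
  have h1 : v ⊓ w = -(-v ⊔ -w) := by rw [← neg_inf, neg_neg]
  rw [h1, map_neg, ev_sup, map_neg, map_neg, ← neg_inf, neg_neg]

lemma ev_mono (u : V) {v w : V} (h : v ≤ w) : ev u v ≤ ev u w := by
  intro c; exact c.2.mono h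

lemma denseRange_ev (u : V) (hunit : ∀ v : V, ∃ r : ℝ, |v| ≤ r • u) : DenseRange (ev u) := by
  haveI := compactSpace_charSpace u hunit
  have h1 := ContinuousMap.sublattice_closure_eq_top (X := CharSpace u) (range (ev u))
    ⟨_, ⟨0, rfl⟩⟩ ?_ ?_ ?_
  · intro f
    have : f ∈ closure (range (ev u)) := by rw [h1]; trivial
    exact this
  · rintro _ ⟨v, rfl⟩ _ ⟨w, rfl⟩
    exact ⟨v ⊓ w, ev_inf u v w⟩
  · rintro _ ⟨v, rfl⟩ _ ⟨w, rfl⟩
    exact ⟨v ⊔ w, ev_sup u v w⟩
  · intro val x y
    by_cases hxy : x = y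
    · subst hxy
      refine ⟨ev u (val x • u), ⟨_, rfl⟩, ?_, ?_⟩ <;>
      · rw [ev_apply, x.2.smul, x.2.one, mul_one]
    · have h2 : ∃ v, x.1 v ≠ y.1 v := by
        by_contra hcon
        push Not at hcon
        exact hxy (Subtype.ext (funext hcon))
      obtain ⟨v, hv⟩ := h2
      have hd : x.1 v - y.1 v ≠ 0 := sub_ne_zero.mpr hv
      set a : ℝ := (val x - val y) / (x.1 v - y.1 v) with ha
      set b : ℝ := val x - a * x.1 v with hb
      refine ⟨ev u (a • v + b • u), ⟨_, rfl⟩, ?_, ?_⟩
      · rw [ev_apply, x.2.add, x.2.smul, x.2.smul, x.2.one, hb]; ring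
      · rw [ev_apply, y.2.add, y.2.smul, y.2.smul, y.2.one, hb, ha]
        field_simp
        ring

end Char

section Banach

variable {B : Type*} [NormedAddCommGroup B] [NormedSpace ℝ B] [Lattice B] [IsOrderedAddMonoid B]
  [HasSolidNorm B] [PosSMulMono ℝ B]

lemma abs_sup_le_add (x y : B) : |x ⊔ y| ≤ |x| + |y| := by
  rw [abs_le']
  constructor
  · apply sup_le
    · exact (le_abs_self x).trans (le_add_of_nonneg_right (abs_nonneg y))
    · exact (le_abs_self y).trans (le_add_of_nonneg_left (abs_nonneg x))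
  · have : -(x ⊔ y) ≤ -x := neg_le_neg le_sup_left
    exact this.trans ((neg_le_abs x).trans (le_add_of_nonneg_right (abs_nonneg y)))

lemma abs_inf_le_add (x y : B) : |x ⊓ y| ≤ |x| + |y| := by
  have h1 : x ⊓ y = -(-x ⊔ -y) := by rw [← neg_inf, neg_neg]
  rw [h1, abs_neg]
  have := abs_sup_le_add (-x) (-y)
  rwa [abs_neg, abs_neg] at this

/-- The principal ideal generated by `u ≥ 0`. -/
def pIdeal (u : B) (hu : 0 ≤ u) : Submodule ℝ B where
  carrier := {b | ∃ r : ℝ, |b| ≤ r • u}
  add_mem' := by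
    rintro a b ⟨r, hr⟩ ⟨s, hs⟩
    exact ⟨r + s, (abs_add_le a b).trans (by rw [add_smul]; exact add_le_add hr hs)⟩
  zero_mem' := ⟨0, by simp⟩
  smul_mem' := by
    rintro t b ⟨r, hr⟩
    refine ⟨|t| * r, ?_⟩
    rw [abs_smul', mul_smul]
    exact smul_le_smul_of_nonneg_left hr (abs_nonneg t)

lemma mem_pIdeal {u : B} {hu : 0 ≤ u} {b : B} : b ∈ pIdeal u hu ↔ ∃ r : ℝ, |b| ≤ r • u := Iff.rfl

instance (u : B) (hu : 0 ≤ u) : Lattice (pIdeal u hu) :=
  Subtype.lattice
    (fun x y hx hy => by
      obtain ⟨r, hr⟩ := hx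
      obtain ⟨s, hs⟩ := hy
      exact ⟨r + s, (abs_sup_le_add x y).trans (by rw [add_smul]; exact add_le_add hr hs)⟩)
    (fun x y hx hy => by
      obtain ⟨r, hr⟩ := hx
      obtain ⟨s, hs⟩ := hy
      exact ⟨r + s, (abs_inf_le_add x y).trans (by rw [add_smul]; exact add_le_add hr hs)⟩)

instance (u : B) (hu : 0 ≤ u) : IsOrderedAddMonoid (pIdeal u hu) where
  add_le_add_left a b h c := by
    show (a : B) + (c : B) ≤ (b : B) + (c : B)
    exact add_le_add_left h _

instance (u : B) (hu : 0 ≤ u) : PosSMulMono ℝ (pIdeal u hu) where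
  smul_le_smul_of_nonneg_left t ht a b h := by
    show t • (a : B) ≤ t • (b : B)
    exact smul_le_smul_of_nonneg_left h ht

/-- `u` as an element of its principal ideal. -/
def uI (u : B) (hu : 0 ≤ u) : pIdeal u hu := ⟨u, 1, by rw [abs_of_nonneg hu, one_smul]⟩

lemma coe_sup {u : B} {hu : 0 ≤ u} (a b : pIdeal u hu) : ((a ⊔ b : pIdeal u hu) : B) = (a : B) ⊔ b :=
  rfl

lemma coe_inf {u : B} {hu : 0 ≤ u} (a b : pIdeal u hu) : ((a ⊓ b : pIdeal u hu) : B) = (a : B) ⊓ b :=
  rfl

lemma coe_abs {u : B} {hu : 0 ≤ u} (a : pIdeal u hu) : ((|a| : pIdeal u hu) : B) = |(a : B)| :=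
  rfl

lemma hunit {u : B} (hu : 0 ≤ u) (v : pIdeal u hu) : ∃ r : ℝ, |v| ≤ r • uI u hu := v.2

/-- Enough characters on a principal ideal. -/
lemma le_of_chars {u : B} (hu : 0 ≤ u) (v : pIdeal u hu) (r : ℝ)
    (H : ∀ h : pIdeal u hu → ℝ, IsChar (uI u hu) h → h v ≤ r) : (v : B) ≤ r • u := by
  by_cases hu0 : u = 0
  · obtain ⟨s, hs⟩ := v.2
    have h1 : s • u = 0 := by rw [hu0, smul_zero]
    have h2 : r • u = 0 := by rw [hu0, smul_zero]
    rw [h2]
    exact ((le_abs_self _).trans hs).trans_eq h1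
  · -- the gauge function
    have hne : ∀ w : pIdeal u hu, {r : ℝ | (w : B) ≤ r • u}.Nonempty := by
      intro w
      obtain ⟨s, hs⟩ := w.2
      exact ⟨s, (le_abs_self _).trans hs⟩
    have hnotle : ∀ t : ℝ, 0 ≤ t • u → 0 ≤ t := by
      intro t ht
      by_contra hneg
      push Not at hneg
      have h1 : 0 ≤ -u := by
        have := smul_le_smul_of_nonneg_left ht (show 0 ≤ (-t)⁻¹ by rw [inv_nonneg]; linarith)
        rw [smul_zero, smul_smul] at this
        have h4 : (-t)⁻¹ * t = -1 := by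
          rw [inv_neg, neg_mul, inv_mul_cancel₀ hneg.ne]
        rwa [h4, neg_one_smul] at this
      exact hu0 (le_antisymm (neg_nonneg.mp h1) hu)
    have hbdd : ∀ w : pIdeal u hu, BddBelow {r : ℝ | (w : B) ≤ r • u} := by
      intro w
      obtain ⟨s, hs⟩ := w.2
      refine ⟨-s, ?_⟩
      intro r hr
      have h1 : -(w : B) ≤ s • u := (neg_le_abs _).trans hs
      have h2 : (0 : B) ≤ (r + s) • u := by
        have h3 : (w : B) ≤ r • u := hr
        have := add_le_add h3 h1
        rw [add_neg_cancel, ← add_smul] at this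
        exact this
      have := hnotle _ h2
      linarith
    have hclosed : ∀ w : pIdeal u hu, IsClosed {r : ℝ | (w : B) ≤ r • u} := by
      intro w
      have h1 : Continuous fun r : ℝ => r • u := by fun_prop
      exact isClosed_Ici.preimage h1
    set p : pIdeal u hu → ℝ := fun w => sInf {r : ℝ | (w : B) ≤ r • u} with hp
    have hpiff : ∀ (w : pIdeal u hu) (r : ℝ), p w ≤ r ↔ w ≤ r • uI u hu := by
      intro w r
      constructor
      · intro h
        have h1 : (w : B) ≤ p w • u := (hclosed w).csInf_mem (hne w) (hbdd w)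
        have h2 : p w • u ≤ r • u := by
          have : 0 ≤ (r - p w) • u := smul_nonneg (by linarith) hu
          rw [sub_smul] at this
          exact sub_nonneg.mp this
        exact h1.trans h2
      · intro h
        exact csInf_le (hbdd w) h
    obtain ⟨h, hh, hv⟩ := exists_char (uI u hu) p hpiff v
    have h1 : p v ≤ r := by rw [← hv]; exact H h hh
    exact (hpiff v r).mp h1

/-- The norm estimate comparing `B` and the sup norm on characters. -/
lemma abs_le_norm_ev {u : B} (hu : 0 ≤ u) (v : pIdeal u hu)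
    [CompactSpace (CharSpace (uI u hu))] : |(v : B)| ≤ ‖ev (uI u hu) v‖ • u := by
  have := le_of_chars hu |v| ‖ev (uI u hu) v‖ ?_
  · exact this
  · intro h hh
    rw [hh.map_abs]
    have := (ev (uI u hu) v).norm_coe_le_norm ⟨h, hh⟩
    rw [Real.norm_eq_abs] at this
    exact this

lemma norm_le_norm_ev {u : B} (hu : 0 ≤ u) (v : pIdeal u hu)
    [CompactSpace (CharSpace (uI u hu))] : ‖(v : B)‖ ≤ ‖u‖ * ‖ev (uI u hu) v‖ := by
  have h1 := abs_le_norm_ev hu v
  have h2 : |(v : B)| ≤ |‖ev (uI u hu) v‖ • u| := h1.trans (le_abs_self _)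
  have h3 := HasSolidNorm.solid h2
  rw [norm_smul, norm_norm] at h3
  linarith

lemma continuous_abs_lattice {E : Type*} [NormedAddCommGroup E] [Lattice E] [HasSolidNorm E]
    [IsOrderedAddMonoid E] : Continuous fun a : E => |a| := by
  show Continuous fun a : E => a ⊔ -a
  exact continuous_id.sup continuous_neg

lemma continuous_abs_cm {X : Type*} [TopologicalSpace X] [CompactSpace X] :
    Continuous fun f : C(X, ℝ) => |f| := by
  have h1 : LipschitzWith 1 fun f : C(X, ℝ) => |f| := by
    apply LipschitzWith.of_dist_le_mul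
    intro f g
    rw [NNReal.coe_one, one_mul, ContinuousMap.dist_le dist_nonneg]
    intro x
    rw [ContinuousMap.abs_apply, ContinuousMap.abs_apply]
    refine le_trans ?_ (ContinuousMap.dist_apply_le_dist x)
    rw [Real.dist_eq, Real.dist_eq]
    exact abs_abs_sub_abs_le _ _
  exact h1.continuous

variable [CompleteSpace B]

/-- **Yosida representation.** -/
theorem yosida (u : B) (hu : 0 ≤ u) : ∃ (_ : CompactSpace (CharSpace (uI u hu)))
    (Psi : C(CharSpace (uI u hu), ℝ) →L[ℝ] B),
    (∀ v : pIdeal u hu, Psi (ev (uI u hu) v) = v) ∧ (∀ f, Psi |f| = |Psi f|) ∧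
    (∀ f, ‖Psi f‖ ≤ ‖u‖ * ‖f‖) := by
  haveI := compactSpace_charSpace (uI u hu) (hunit hu)
  refine ⟨this, ?_⟩
  have hdense := denseRange_ev (uI u hu) (hunit hu)
  set Psi : C(CharSpace (uI u hu), ℝ) →L[ℝ] B :=
    (pIdeal u hu).subtype.extendOfNorm (ev (uI u hu)) with hPsi
  have h1 : ∀ v : pIdeal u hu, Psi (ev (uI u hu) v) = v := fun v =>
    LinearMap.extendOfNorm_eq hdense ⟨‖u‖, fun v => norm_le_norm_ev hu v⟩ v
  refine ⟨Psi, h1, ?_, ?_⟩
  · intro f
    apply hdense.induction (P := fun f => Psi |f| = |Psi f|)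
    · rintro _ ⟨v, rfl⟩
      rw [← ev_abs, h1, h1, coe_abs]
    · apply isClosed_eq
      · exact Psi.continuous.comp continuous_abs_cm
      · exact continuous_abs_lattice.comp Psi.continuous
  · intro f
    exact LinearMap.norm_extendOfNorm_apply_le hdense ‖u‖ (fun v => norm_le_norm_ev hu v) f

end Banach

end Pool.Agent.H32.BLat
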